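import Pool.Agent.L0h56.HS.Stm

/-!
# HS / FLD: a commutative group of automorphisms which is transitive on the nontrivial elements makes an elementary
abelian 2-group a field of characteristic 2
-/

set_option autoImplicit false

namespace Pool.Agent.L0h6.HS

open Pool.Agent.L0h56.HS

section

variable {G : Type} [CommGroup G]

/-- the multiplication -/
noncomputable def mm (A : G → MulAut G) (g h : G) : G := by
  classical exact if g = 1 then 1 else A g h

theorem mm_one_left (A : G → MulAut G) (h : G) : mm A 1 h = 1 := by simp [mm]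

theorem mm_of_ne (A : G → MulAut G) {g : G} (hg : g ≠ 1) (h : G) : mm A g h = A g h := by simp [mm, hg]

theorem mm_one_right (A : G → MulAut G) (g : G) : mm A g 1 = 1 := by
  by_cases hg : g = 1
  · rw [hg, mm_one_left]
  · rw [mm_of_ne A hg, map_one]

theorem uniq {Γ : Subgroup (MulAut G)} (hc : ∀ α ∈ Γ, ∀ β ∈ Γ, α * β = β * α)
    (ht : ∀ a b : G, a ≠ 1 → b ≠ 1 → ∃ α ∈ Γ, α a = b) {a₀ : G} (h0 : a₀ ≠ 1) {α β : MulAut G}
    (hα : α ∈ Γ) (hβ : β ∈ Γ) (h : α a₀ = β a₀) : α = β := by
  have hc' : ∀ α ∈ Γ, ∀ β ∈ Γ, ∀ x, α (β x) = β (α x) := fun α hα β hβ x => by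
    have := congrArg (fun f : MulAut G => f x) (hc α hα β hβ)
    simpa using this
  ext b
  by_cases hb : b = 1
  · rw [hb, map_one, map_one]
  · obtain ⟨γ, hγ, rfl⟩ := ht a₀ b h0 hb
    rw [hc' α hα γ hγ, h, hc' β hβ γ hγ]

end

theorem t_FLD : S_FLD := by
  classical
  intro G _ _ hsq hcard Γ hc ht
  obtain ⟨a₀, h0⟩ : ∃ a : G, a ≠ 1 := by
    have : Nontrivial G := Finite.one_lt_card_iff_nontrivial.1 (by omega)
    exact exists_ne 1
  have hc' : ∀ α ∈ Γ, ∀ β ∈ Γ, ∀ x, α (β x) = β (α x) := fun α hα β hβ x => by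
    have := congrArg (fun f : MulAut G => f x) (hc α hα β hβ)
    simpa using this
  have hA : ∀ g : G, ∃ α ∈ Γ, g ≠ 1 → α a₀ = g := by
    intro g
    by_cases hg : g = 1
    · exact ⟨1, Γ.one_mem, fun h => absurd hg h⟩
    · obtain ⟨α, hα, h⟩ := ht a₀ g h0 hg
      exact ⟨α, hα, fun _ => h⟩
  choose A hAm hA' using hA
  have hne : ∀ (α : MulAut G) (g : G), g ≠ 1 → α g ≠ 1 := by
    intro α g hg h
    exact hg ((map_eq_one_iff α α.injective).1 h)
  -- laws
  have m_comm : ∀ g h, mm A g h = mm A h g := by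
    intro g h
    by_cases hg : g = 1
    · rw [hg, mm_one_left, mm_one_right]
    by_cases hh : h = 1
    · rw [hh, mm_one_left, mm_one_right]
    rw [mm_of_ne A hg, mm_of_ne A hh]
    calc A g h = A g (A h a₀) := by rw [hA' h hh]
      _ = A h (A g a₀) := hc' _ (hAm g) _ (hAm h) _
      _ = A h g := by rw [hA' g hg]
  have m_mul : ∀ g h k, mm A g (h * k) = mm A g h * mm A g k := by
    intro g h k
    by_cases hg : g = 1
    · simp only [hg, mm_one_left, mul_one]
    · simp only [mm_of_ne A hg, map_mul]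
  have m_mul' : ∀ g h k, mm A (g * h) k = mm A g k * mm A h k := by
    intro g h k
    rw [m_comm (g * h) k, m_mul, m_comm k g, m_comm k h]
  have m_a : ∀ g, mm A g a₀ = g := by
    intro g
    by_cases hg : g = 1
    · rw [hg, mm_one_left]
    · rw [mm_of_ne A hg, hA' g hg]
  have m_a' : ∀ g, mm A a₀ g = g := fun g => by rw [m_comm, m_a]
  have m_assoc : ∀ g h k, mm A (mm A g h) k = mm A g (mm A h k) := by
    intro g h k
    by_cases hg : g = 1
    · simp only [hg, mm_one_left]
    by_cases hh : h = 1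
    · simp only [hh, mm_one_left, mm_one_right]
    have h1 : A (A g h) = A g * A h := by
      apply uniq hc ht h0 (hAm _) (Γ.mul_mem (hAm _) (hAm _))
      rw [hA' _ (hne _ _ hh), MulAut.mul_apply, hA' h hh]
    rw [mm_of_ne A hg, mm_of_ne A hg, mm_of_ne A hh, mm_of_ne A (hne _ _ hh), h1, MulAut.mul_apply]
  let R : CommRing (Additive G) :=
    { (inferInstance : AddCommGroup (Additive G)) with
      mul := fun x y => Additive.ofMul (mm A (Additive.toMul x) (Additive.toMul y))
      one := Additive.ofMul a₀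
      left_distrib := fun x y z => congrArg Additive.ofMul (m_mul x.toMul y.toMul z.toMul)
      right_distrib := fun x y z => congrArg Additive.ofMul (m_mul' x.toMul y.toMul z.toMul)
      zero_mul := fun x => congrArg Additive.ofMul (mm_one_left A x.toMul)
      mul_zero := fun x => congrArg Additive.ofMul (mm_one_right A x.toMul)
      mul_assoc := fun x y z => congrArg Additive.ofMul (m_assoc x.toMul y.toMul z.toMul)
      one_mul := fun x => congrArg Additive.ofMul (m_a' x.toMul)
      mul_one := fun x => congrArg Additive.ofMul (m_a x.toMul)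
      mul_comm := fun x y => congrArg Additive.ofMul (m_comm x.toMul y.toMul) }
  have hfield : @IsField (Additive G) R.toCommSemiring.toSemiring := by
    let _ := R
    refine ⟨⟨Additive.ofMul a₀, Additive.ofMul 1, fun h => h0 (Additive.ofMul.injective h)⟩, mul_comm, ?_⟩
    intro x hx
    have hg : x.toMul ≠ 1 := fun h => hx (Additive.toMul.injective h)
    obtain ⟨β, hβ, hb⟩ := ht x.toMul a₀ hg h0
    refine ⟨Additive.ofMul (β a₀), ?_⟩
    show Additive.ofMul (mm A x.toMul (β a₀)) = Additive.ofMul a₀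
    rw [mm_of_ne A hg, hc' _ (hAm _) _ hβ, hA' _ hg, hb]
  let F : Field (Additive G) := @IsField.toField (Additive G) R.toRing hfield
  have hmul : ∀ x y : Additive G, x * y = Additive.ofMul (mm A x.toMul y.toMul) := fun _ _ => rfl
  have hone : (1 : Additive G) = Additive.ofMul a₀ := rfl
  have h10 : (1 : Additive G) ≠ 0 := one_ne_zero
  have h2 : (2 : Additive G) = 0 := by
    rw [← one_add_one_eq_two]
    show Additive.ofMul (a₀ * a₀) = Additive.ofMul 1
    rw [hsq]
  refine ⟨Additive G, F, inferInstanceAs (Finite G), CharTwo.of_one_ne_zero_of_two_eq_zero h10 h2,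
    Additive.ofMul, Additive.ofMul.bijective, rfl, fun _ _ => rfl, ?_, ?_⟩
  · intro α hα
    refine ⟨Additive.ofMul (α a₀), fun h => hne α a₀ h0 (Additive.ofMul.injective h), fun a => ?_⟩
    have h3 : A (α a₀) = α := uniq hc ht h0 (hAm _) hα (hA' _ (hne _ _ h0))
    rw [hmul]
    show Additive.ofMul (α a) = Additive.ofMul (mm A (α a₀) a)
    rw [mm_of_ne A (hne _ _ h0), h3]
  · intro z hz
    have hg : z.toMul ≠ 1 := fun h => hz (Additive.toMul.injective h)
    refine ⟨A z.toMul, hAm _, fun a => ?_⟩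
    rw [hmul]
    show Additive.ofMul (A z.toMul a) = Additive.ofMul (mm A z.toMul a)
    rw [mm_of_ne A hg]

end Pool.Agent.L0h6.HS
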